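import Mathlib

set_option autoImplicit false

namespace Pool.Agent.Results.MP_362e7f_co.Counterexample

open Finset

/-- A pair of hypergraphs on a common finite vertex set; edges are counted with multiplicity. -/
structure HPair (Ω : Type) where
  /-- the vertex set -/
  V : Finset Ω
  /-- the edges of the first hypergraph -/
  H : Multiset (Finset Ω)
  /-- the edges of the second hypergraph -/
  F : Multiset (Finset Ω)
  hH : ∀ e ∈ H, e ⊆ V
  hF : ∀ e ∈ F, e ⊆ V

variable {Ω : Type} [DecidableEq Ω]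

/-- The pair induced on `S`. -/
def HPair.induce (p : HPair Ω) (S : Finset Ω) : HPair Ω where
  V := S
  H := p.H.filter (fun e => e ⊆ S)
  F := p.F.filter (fun e => e ⊆ S)
  hH := fun _ he => (Multiset.mem_filter.1 he).2
  hF := fun _ he => (Multiset.mem_filter.1 he).2

/-- `α_H(F)`: the maximum of `e(H[I])` over the sets `I ⊆ V` that are independent in `F`. -/
def HPair.alpha (p : HPair Ω) : ℕ :=
  (p.V.powerset.filter (fun I => (p.F.filter (fun e => e ⊆ I)).card = 0)).sup
    (fun I => (p.H.filter (fun e => e ⊆ I)).card)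

/-- Hypotheses (*) of the problem. -/
def Star (P : Set (HPair Ω)) (h f f' : ℕ) (β : ℝ) : Prop :=
  (1 ≤ h ∧ 1 ≤ f ∧ f ≤ f') ∧
  -- hereditary
  (∀ p ∈ P, ∀ S ⊆ p.V, p.induce S ∈ P) ∧
  -- bounded
  (∀ p ∈ P, (∀ e ∈ p.H, e.card ≤ h) ∧ (∀ e ∈ p.F, f ≤ e.card ∧ e.card ≤ f')) ∧
  β < h ∧
  -- ex(n, P) = O(n^β)
  (∃ (C : ℝ) (N : ℕ), ∀ p ∈ P, N ≤ p.V.card → (p.alpha : ℝ) ≤ C * (p.V.card : ℝ) ^ β) ∧
  (f : ℝ) < h - β ∧
  -- no edge of F is contained in an edge of H
  (∀ p ∈ P, ∀ e ∈ p.F, ∀ g ∈ p.H, ¬ e ⊆ g)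

/-- The conclusion of the conjectured statement. -/
def Concl (P : Set (HPair Ω)) (h f : ℕ) (β : ℝ) : Prop :=
  ∃ (k₀ c : ℝ), 0 < c ∧ ∀ p ∈ P, ∀ k : ℝ, k₀ ≤ k → k * (p.V.card : ℝ) ^ β ≤ (p.H.card : ℝ) →
    c * k ^ ((f : ℝ) / (h - β)) ≤ (p.F.card : ℝ)

/-- The base vertices `(j, 0)`, `j < a`. -/
def base (a : ℕ) : Finset (ℕ × ℕ) := (range a).image (fun j => (j, 0))

/-- Edges of the first hypergraph: transversals of the columns `0, …, h-1` containing the base. -/
def isH (a h : ℕ) (e : Finset (ℕ × ℕ)) : Prop :=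
  e.card = h ∧ base a ⊆ e ∧ e.image Prod.fst = range h

/-- Edges of the second hypergraph: the base and two vertices of one column `i ≥ a`. -/
def isF (a h : ℕ) (e : Finset (ℕ × ℕ)) : Prop :=
  ∃ i x y : ℕ, a ≤ i ∧ i < h ∧ x ≠ y ∧ e = base a ∪ {(i, x), (i, y)}

open Classical in
/-- The pair induced on the vertex set `S`. -/
noncomputable def pr (a h : ℕ) (S : Finset (ℕ × ℕ)) : HPair (ℕ × ℕ) where
  V := S
  H := (S.powerset.filter (isH a h)).val
  F := (S.powerset.filter (isF a h)).val
  hH := fun e he => by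
    have : e ∈ S.powerset.filter (isH a h) := he
    exact mem_powerset.1 (mem_filter.1 this).1
  hF := fun e he => by
    have : e ∈ S.powerset.filter (isF a h) := he
    exact mem_powerset.1 (mem_filter.1 this).1

lemma induce_pr (a h : ℕ) (S T : Finset (ℕ × ℕ)) (hT : T ⊆ S) :
    (pr a h S).induce T = pr a h T := by
  classical
  have h1 : ∀ Q : Finset (ℕ × ℕ) → Prop, ∀ [DecidablePred Q],
      (S.powerset.filter Q).val.filter (fun e => e ⊆ T) = (T.powerset.filter Q).val := by
    intro Q _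
    rw [← filter_val]
    congr 1
    ext e
    simp only [mem_filter, mem_powerset]
    constructor
    · rintro ⟨⟨_, h2⟩, h3⟩; exact ⟨h3, h2⟩
    · rintro ⟨h2, h3⟩; exact ⟨⟨h2.trans hT, h3⟩, h2⟩
  unfold HPair.induce pr
  simp only [h1]

lemma isH_inj {a h : ℕ} {e : Finset (ℕ × ℕ)} (he : isH a h e) {p q : ℕ × ℕ} (hp : p ∈ e)
    (hq : q ∈ e) (hpq : p.1 = q.1) : p = q := by
  obtain ⟨h1, _, h3⟩ := he
  have h4 : (e.image Prod.fst).card = e.card := by rw [h3, card_range, h1]
  exact card_image_iff.1 h4 hp hq hpq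

/-- Two different transversals inside `I` force an edge of the second hypergraph. -/
lemma exists_isF {a h : ℕ} {e g I : Finset (ℕ × ℕ)} (he : isH a h e) (hg : isH a h g)
    (hne : e ≠ g) (heI : e ⊆ I) (hgI : g ⊆ I) : ∃ t, isF a h t ∧ t ⊆ I := by
  have hsub : ¬ e ⊆ g := by
    intro hs
    exact hne (eq_of_subset_of_card_le hs (by rw [he.1, hg.1]))
  obtain ⟨⟨i, x⟩, hx, hxg⟩ := not_subset.1 hsub
  have hi : i ∈ range h := by
    rw [← he.2.2]
    exact mem_image.2 ⟨_, hx, rfl⟩
  have hi' := hi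
  rw [← hg.2.2] at hi'
  obtain ⟨⟨j, y⟩, hy, hji⟩ := mem_image.1 hi'
  simp only at hji
  subst hji
  have hxy : x ≠ y := by
    rintro rfl
    exact hxg hy
  have haj : a ≤ j := by
    by_contra hlt
    push Not at hlt
    have hb : (j, 0) ∈ base a := mem_image.2 ⟨j, mem_range.2 hlt, rfl⟩
    have e1 := isH_inj he hx (he.2.1 hb) rfl
    have e2 := isH_inj hg hy (hg.2.1 hb) rfl
    apply hxy
    rw [Prod.mk.injEq] at e1 e2
    rw [e1.2, e2.2]
  refine ⟨base a ∪ {(j, x), (j, y)}, ⟨j, x, y, haj, mem_range.1 hi, hxy, rfl⟩, ?_⟩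
  refine union_subset (he.2.1.trans heI) ?_
  intro t ht
  rw [mem_insert, mem_singleton] at ht
  rcases ht with rfl | rfl
  · exact heI hx
  · exact hgI hy

lemma isF_card {a h : ℕ} {e : Finset (ℕ × ℕ)} (he : isF a h e) : e.card = a + 2 := by
  obtain ⟨i, x, y, hai, _, hxy, rfl⟩ := he
  rw [card_union_of_disjoint, card_pair]
  · congr 1
    unfold base
    rw [card_image_of_injective, card_range]
    intro p q hpq
    simpa using hpq
  · intro h
    rw [Prod.mk.injEq] at h
    exact hxy h.2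
  · rw [disjoint_left]
    intro t ht ht'
    unfold base at ht
    obtain ⟨j, hj, rfl⟩ := mem_image.1 ht
    rw [mem_insert, mem_singleton, Prod.mk.injEq, Prod.mk.injEq] at ht'
    rw [mem_range] at hj
    rcases ht' with h | h <;> omega

lemma star {f h : ℕ} (hf : 3 ≤ f) (hfh : f < h) :
    Star (Set.range (pr (f - 2) h)) h f f 0 := by
  classical
  refine ⟨⟨by omega, by omega, le_rfl⟩, ?_, ?_, ?_, ?_, ?_, ?_⟩
  · rintro _ ⟨S, rfl⟩ T hT
    exact ⟨T, (induce_pr _ _ S T hT).symm⟩
  · rintro _ ⟨S, rfl⟩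
    refine ⟨?_, ?_⟩
    · intro e he
      have : e ∈ S.powerset.filter (isH (f - 2) h) := he
      exact (mem_filter.1 this).2.1.le
    · intro e he
      have : e ∈ S.powerset.filter (isF (f - 2) h) := he
      have := isF_card (mem_filter.1 this).2
      omega
  · have : (0 : ℝ) < h := by
      have : 0 < h := by omega
      exact_mod_cast this
    exact this
  · refine ⟨1, 0, ?_⟩
    rintro _ ⟨S, rfl⟩ _
    rw [Real.rpow_zero, mul_one]
    have : (pr (f - 2) h S).alpha ≤ 1 := by
      unfold HPair.alpha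
      refine Finset.sup_le fun I hI => ?_
      rw [mem_filter] at hI
      have hI2 := hI.2
      unfold pr at hI2 ⊢
      simp only at hI2 ⊢
      rw [← filter_val, ← card_def] at hI2 ⊢
      rw [card_le_one]
      intro e he g hg
      by_contra hne
      rw [mem_filter, mem_filter] at he hg
      obtain ⟨t, ht, htI⟩ := exists_isF he.1.2 hg.1.2 hne he.2 hg.2
      rw [card_eq_zero, filter_eq_empty_iff] at hI2
      exact hI2 (mem_filter.2 ⟨mem_powerset.2 (htI.trans (mem_powerset.1 hI.1)), ht⟩) htI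
    exact_mod_cast this
  · have : (f : ℝ) < h := by exact_mod_cast hfh
    linarith
  · rintro _ ⟨S, rfl⟩ e he g hg hsub
    have he' : e ∈ S.powerset.filter (isF (f - 2) h) := he
    have hg' : g ∈ S.powerset.filter (isH (f - 2) h) := hg
    obtain ⟨i, x, y, _, _, hxy, rfl⟩ := (mem_filter.1 he').2
    have h1 : (i, x) ∈ g := hsub (mem_union_right _ (by simp))
    have h2 : (i, y) ∈ g := hsub (mem_union_right _ (by simp))
    have := isH_inj (mem_filter.1 hg').2 h1 h2 rfl
    rw [Prod.mk.injEq] at this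
    exact hxy this.2

/-- The full vertex set with columns `a ≤ i < h` of size `w`. -/
def full (a h w : ℕ) : Finset (ℕ × ℕ) := base a ∪ (Ico a h) ×ˢ (range w)

lemma card_H (a b w : ℕ) : w ^ b ≤ ((pr a (a + b) (full a (a + b) w)).H).card := by
  classical
  unfold pr
  simp only
  rw [← card_def]
  have h1 : (univ : Finset (Fin b → Fin w)).card = w ^ b := by simp
  rw [← h1]
  refine card_le_card_of_injOn
    (fun g => base a ∪ (univ : Finset (Fin b)).image (fun i : Fin b => (a + (i : ℕ), ((g i : Fin w) : ℕ)))) ?_ ?_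
  · intro g _
    simp only [coe_filter, mem_powerset, Set.mem_ofPred_eq]
    have hd : Disjoint (base a)
        ((univ : Finset (Fin b)).image (fun i : Fin b => (a + (i : ℕ), ((g i : Fin w) : ℕ)))) := by
      rw [disjoint_left]
      intro t ht ht'
      unfold base at ht
      obtain ⟨j, hj, rfl⟩ := mem_image.1 ht
      obtain ⟨i, _, hi⟩ := mem_image.1 ht'
      rw [Prod.mk.injEq] at hi
      rw [mem_range] at hj
      omega
    refine ⟨?_, ?_, subset_union_left, ?_⟩
    · refine union_subset subset_union_left ?_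
      intro t ht
      obtain ⟨i, _, rfl⟩ := mem_image.1 ht
      refine mem_union_right _ ?_
      rw [mem_product, mem_Ico, mem_range]
      exact ⟨⟨by simp, by simp⟩, (g i).2⟩
    · rw [card_union_of_disjoint hd, card_image_of_injective, card_univ, Fintype.card_fin]
      · congr 1
        unfold base
        rw [card_image_of_injective, card_range]
        intro p q hpq
        simpa using hpq
      · intro p q hpq
        simp only [Prod.mk.injEq] at hpq
        exact Fin.ext (by omega)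
    · rw [image_union]
      ext j
      unfold base
      simp only [mem_union, mem_image, mem_range, mem_univ, true_and]
      constructor
      · rintro (⟨t, ⟨i, hi, rfl⟩, rfl⟩ | ⟨t, ⟨i, rfl⟩, rfl⟩)
        · simp only; omega
        · have := i.2
          simp only
          omega
      · intro hj
        by_cases hja : j < a
        · exact Or.inl ⟨(j, 0), ⟨j, hja, rfl⟩, rfl⟩
        · right
          exact ⟨_, ⟨⟨j - a, by omega⟩, rfl⟩, by simp only; omega⟩
  · intro g _ g' _ hgg
    simp only at hgg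
    funext i
    have h2 : (a + (i : ℕ), ((g i : Fin w) : ℕ)) ∈ base a ∪
        (univ : Finset (Fin b)).image (fun i : Fin b => (a + (i : ℕ), ((g' i : Fin w) : ℕ))) := by
      rw [← hgg]
      exact mem_union_right _ (mem_image.2 ⟨i, mem_univ _, rfl⟩)
    rw [mem_union] at h2
    rcases h2 with h2 | h2
    · unfold base at h2
      obtain ⟨j, hj, hj2⟩ := mem_image.1 h2
      rw [mem_range] at hj
      rw [Prod.mk.injEq] at hj2
      omega
    · obtain ⟨j, _, hj⟩ := mem_image.1 h2
      rw [Prod.mk.injEq] at hj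
      have : j = i := Fin.ext (by omega)
      subst this
      exact Fin.ext hj.2.symm

lemma card_F (a b w : ℕ) : ((pr a (a + b) (full a (a + b) w)).F).card ≤ b * w ^ 2 := by
  classical
  unfold pr
  simp only
  rw [← card_def]
  have h1 : ((range b) ×ˢ ((range w) ×ˢ (range w))).card = b * w ^ 2 := by
    rw [card_product, card_product, card_range, card_range, sq]
  rw [← h1]
  refine (card_le_card ?_).trans (card_image_le (s := (range b) ×ˢ ((range w) ×ˢ (range w)))
    (f := fun t => base a ∪ {(a + t.1, t.2.1), (a + t.1, t.2.2)}))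
  intro e he
  rw [mem_filter, mem_powerset] at he
  obtain ⟨hsub, i, x, y, hai, hi, hxy, rfl⟩ := he
  have key : ∀ z, (i, z) ∈ full a (a + b) w → z < w := by
    intro z hz
    unfold full at hz
    rw [mem_union] at hz
    rcases hz with h | h
    · unfold base at h
      obtain ⟨j, hj, hj2⟩ := mem_image.1 h
      rw [mem_range] at hj
      rw [Prod.mk.injEq] at hj2
      omega
    · rw [mem_product] at h
      exact mem_range.1 h.2
  have hx := key x (hsub (mem_union_right _ (by simp)))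
  have hy := key y (hsub (mem_union_right _ (by simp)))
  refine mem_image.2 ⟨(i - a, x, y), ?_, ?_⟩
  · rw [mem_product, mem_product, mem_range, mem_range, mem_range]
    exact ⟨by simp only; omega, hx, hy⟩
  · simp only
    have : a + (i - a) = i := by omega
    rw [this]

lemma not_concl {f h : ℕ} (hf : 3 ≤ f) (hfh : f < h) :
    ¬ Concl (Set.range (pr (f - 2) h)) h f 0 := by
  rintro ⟨k₀, c, hc, hall⟩
  obtain ⟨b, hb⟩ : ∃ b, h = (f - 2) + b := ⟨h - (f - 2), by omega⟩
  have hb3 : 3 ≤ b := by omega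
  have hh0 : (0 : ℝ) < h := by
    have : 0 < h := by omega
    exact_mod_cast this
  set δ : ℝ := b * f / h - 2 with hδ
  have hδ0 : 0 < δ := by
    rw [hδ, sub_pos, lt_div_iff₀ hh0]
    have h1 : 2 * h < b * f := by
      obtain ⟨g, rfl⟩ : ∃ g, f = g + 3 := ⟨f - 3, by omega⟩
      obtain ⟨d, rfl⟩ : ∃ d, b = d + 3 := ⟨b - 3, by omega⟩
      have : h = g + d + 4 := by omega
      rw [this]
      nlinarith
    exact_mod_cast h1
  -- choose w large
  have ht : Filter.Tendsto (fun w : ℕ => (w : ℝ) ^ δ) Filter.atTop Filter.atTop :=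
    (tendsto_rpow_atTop hδ0).comp tendsto_natCast_atTop_atTop
  obtain ⟨w, hw1, hw2, hw3⟩ := ((ht.eventually_gt_atTop (b / c)).and
    ((Filter.eventually_ge_atTop 1).and
      ((tendsto_natCast_atTop_atTop (R := ℝ)).eventually_ge_atTop k₀))).exists
  have hw0 : (0 : ℝ) < w := by exact_mod_cast hw2
  have hwR : (1 : ℝ) ≤ w := by exact_mod_cast hw2
  have h1 := hall (pr (f - 2) h (full (f - 2) h w)) ⟨_, rfl⟩ ((w : ℝ) ^ b) (by
    calc k₀ ≤ (w : ℝ) := hw3
      _ = (w : ℝ) ^ 1 := (pow_one _).symm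
      _ ≤ (w : ℝ) ^ b := pow_le_pow_right₀ hwR (by omega)) (by
    rw [Real.rpow_zero, mul_one]
    have := card_H (f - 2) b w
    rw [← hb] at this
    exact_mod_cast this)
  have h2 : (((pr (f - 2) h (full (f - 2) h w)).F.card : ℕ) : ℝ) ≤ b * (w : ℝ) ^ 2 := by
    have := card_F (f - 2) b w
    rw [← hb] at this
    exact_mod_cast this
  have h3 : ((w : ℝ) ^ b) ^ ((f : ℝ) / (h - 0)) = (w : ℝ) ^ δ * (w : ℝ) ^ 2 := by
    rw [← Real.rpow_natCast (w : ℝ) b, ← Real.rpow_mul hw0.le, ← Real.rpow_natCast (w : ℝ) 2,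
      ← Real.rpow_add hw0]
    congr 1
    rw [hδ, sub_zero]
    push_cast
    have := hh0.ne'
    field_simp
    ring
  rw [h3] at h1
  have h4 : c * ((w : ℝ) ^ δ * (w : ℝ) ^ 2) ≤ b * (w : ℝ) ^ 2 := h1.trans h2
  have h5 : 0 < (w : ℝ) ^ 2 := by positivity
  have h6 : c * (w : ℝ) ^ δ ≤ b := by
    have : c * (w : ℝ) ^ δ * (w : ℝ) ^ 2 ≤ b * (w : ℝ) ^ 2 := by linarith
    exact le_of_mul_le_mul_right this h5
  rw [div_lt_iff₀ hc] at hw1
  linarith

/-- **Result.** For all integers `3 ≤ f < h` there is a family `P` satisfying the hypotheses (*)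
with these `h`, `f`, with `f' = f` and `β = 0`, for which the conclusion of Q1 fails. -/
theorem result : ∀ f h : ℕ, 3 ≤ f → f < h →
    ∃ P : Set (HPair (ℕ × ℕ)), Star P h f f 0 ∧ ¬ Concl P h f 0 :=
  fun _ _ hf hfh => ⟨_, star hf hfh, not_concl hf hfh⟩

end Pool.Agent.Results.MP_362e7f_co.Counterexample
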